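import Pool.Agent.Helper68.DS.Goals

set_option autoImplicit false

/-!
# The adjugate of a lower bidiagonal matrix
-/

namespace Pool.Agent.Helper6.DS

open Pool.Agent.Helper68.DS Finset

section

variable {A : Type} [CommRing A] {k : ℕ}

/-- The lower bidiagonal matrix. -/
def Lb (b : Fin k → A) (v : ℕ → A) : Matrix (Fin k) (Fin k) A :=
  Matrix.of fun i j : Fin k => if i = j then b i else if (j : ℕ) + 1 = i then v j else 0

/-- Its adjugate. -/
def Nb (b : Fin k → A) (v : ℕ → A) : Matrix (Fin k) (Fin k) A :=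
  Matrix.of fun i j : Fin k => if j ≤ i then
    (-1) ^ ((i : ℕ) - j) * (∏ l ∈ Finset.univ.filter (fun l => l < j ∨ i < l), b l) *
      ∏ m ∈ Finset.Ico (j : ℕ) i, v m else 0

lemma Nb_le (b : Fin k → A) (v : ℕ → A) {i j : Fin k} (h : j ≤ i) : Nb b v i j =
    (-1) ^ ((i : ℕ) - j) * (∏ l ∈ Finset.univ.filter (fun l => l < j ∨ i < l), b l) *
      ∏ m ∈ Finset.Ico (j : ℕ) i, v m := by
  unfold Nb
  rw [Matrix.of_apply, if_pos h]

lemma Nb_lt (b : Fin k → A) (v : ℕ → A) {i j : Fin k} (h : i < j) : Nb b v i j = 0 := by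
  unfold Nb
  rw [Matrix.of_apply, if_neg (not_le.2 h)]

lemma Lb_mul_zero (b : Fin k → A) (v : ℕ → A) (N : Matrix (Fin k) (Fin k) A) (i j : Fin k)
    (hi : (i : ℕ) = 0) : (Lb b v * N) i j = b i * N i j := by
  rw [Matrix.mul_apply, Finset.sum_eq_single i]
  · unfold Lb
    rw [Matrix.of_apply, if_pos rfl]
  · intro l _ hl
    unfold Lb
    rw [Matrix.of_apply, if_neg (Ne.symm hl), if_neg (by omega), zero_mul]
  · intro h
    exact absurd (mem_univ i) h

lemma Lb_mul_succ (b : Fin k → A) (v : ℕ → A) (N : Matrix (Fin k) (Fin k) A) (i p j : Fin k)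
    (hi : (p : ℕ) + 1 = i) : (Lb b v * N) i j = b i * N i j + v p * N p j := by
  have hpi : i ≠ p := by
    intro h
    rw [h] at hi
    omega
  rw [Matrix.mul_apply, Finset.sum_eq_add i p hpi]
  · unfold Lb
    rw [Matrix.of_apply, Matrix.of_apply, if_pos rfl, if_neg hpi, if_pos hi]
  · intro l _ hl
    unfold Lb
    rw [Matrix.of_apply, if_neg (Ne.symm hl.1), if_neg, zero_mul]
    intro h
    apply hl.2
    apply Fin.ext
    omega
  · intro h
    exact absurd (mem_univ i) h
  · intro h
    exact absurd (mem_univ p) h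

lemma Lb_mul_Nb (b : Fin k → A) (v : ℕ → A) : Lb b v * Nb b v = (∏ l, b l) • 1 := by
  ext i j
  rw [Matrix.smul_apply, smul_eq_mul]
  have hdiag : ∀ i : Fin k, b i * Nb b v i i = ∏ l, b l := by
    intro i
    rw [Nb_le b v le_rfl]
    have h1 : Finset.univ.filter (fun l => l < i ∨ i < l) = Finset.univ.erase i := by
      ext l
      simp only [mem_filter, mem_univ, true_and, mem_erase, and_true]
      exact lt_or_lt_iff_ne
    rw [h1]
    simp only [Nat.sub_self, pow_zero, one_mul, Finset.Ico_self, Finset.prod_empty, mul_one]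
    exact Finset.mul_prod_erase _ _ (mem_univ i)
  rcases lt_trichotomy i j with h | h | h
  · -- above the diagonal
    rw [Matrix.one_apply_ne h.ne, mul_zero]
    rcases Nat.eq_zero_or_pos (i : ℕ) with h0 | h0
    · rw [Lb_mul_zero b v _ i j h0, Nb_lt b v h, mul_zero]
    · rw [Lb_mul_succ b v _ i ⟨i - 1, by omega⟩ j (by simp only; omega), Nb_lt b v h,
        Nb_lt b v (i := ⟨i - 1, by omega⟩) (by
          rw [Fin.lt_def] at h ⊢
          simp only
          omega), mul_zero, mul_zero, add_zero]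
  · subst h
    rw [Matrix.one_apply_eq, mul_one]
    rcases Nat.eq_zero_or_pos (i : ℕ) with h0 | h0
    · rw [Lb_mul_zero b v _ i i h0, hdiag]
    · rw [Lb_mul_succ b v _ i ⟨i - 1, by omega⟩ i (by simp only; omega), hdiag,
        Nb_lt b v (i := ⟨i - 1, by omega⟩) (by
          rw [Fin.lt_def]
          simp only
          omega), mul_zero, add_zero]
  · rw [Matrix.one_apply_ne h.ne', mul_zero]
    have h0 : 0 < (i : ℕ) := by
      rw [Fin.lt_def] at h
      omega
    have hp : (j : ℕ) ≤ (i : ℕ) - 1 := by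
      rw [Fin.lt_def] at h
      omega
    set p : Fin k := ⟨i - 1, by omega⟩ with hpdef
    have hpv : (p : ℕ) = i - 1 := rfl
    rw [Lb_mul_succ b v _ i p j (by omega), Nb_le b v h.le, Nb_le b v (i := p) (by
      rw [Fin.le_def]
      omega)]
    have h1 : Finset.univ.filter (fun l => l < j ∨ p < l) =
        insert i (Finset.univ.filter (fun l => l < j ∨ i < l)) := by
      ext l
      simp only [mem_filter, mem_univ, true_and, mem_insert, Fin.lt_def, Fin.ext_iff]
      rw [Fin.lt_def] at h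
      omega
    have h2 : i ∉ Finset.univ.filter (fun l => l < j ∨ i < l) := by
      simp only [mem_filter, mem_univ, true_and, lt_irrefl, or_false, not_lt]
      exact h.le
    have h3 : ∏ m ∈ Finset.Ico (j : ℕ) i, v m = (∏ m ∈ Finset.Ico (j : ℕ) p, v m) * v p := by
      have h4 : (i : ℕ) = (p : ℕ) + 1 := by omega
      rw [h4, Finset.prod_Ico_succ_top (by omega)]
    have h5 : ((i : ℕ) - j) = ((p : ℕ) - j) + 1 := by omega
    rw [h1, Finset.prod_insert h2, h3, h5, pow_succ]
    ring

lemma Lb_det (b : Fin k → A) (v : ℕ → A) : (Lb b v).det = ∏ l, b l := by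
  rw [Matrix.det_of_lowerTriangular]
  · refine Finset.prod_congr rfl fun l _ => ?_
    unfold Lb
    rw [Matrix.of_apply, if_pos rfl]
  · intro i j hij
    have h : i < j := OrderDual.toDual_lt_toDual.1 hij
    unfold Lb
    rw [Matrix.of_apply, if_neg h.ne, if_neg]
    rw [Fin.lt_def] at h
    omega

lemma Lb_adj_dom [IsDomain A] (b : Fin k → A) (v : ℕ → A) (hb : ∀ l, b l ≠ 0) :
    (Lb b v).adjugate = Nb b v := by
  have h1 : (Lb b v).adjugate * (Lb b v * Nb b v) = (∏ l, b l) • Nb b v := by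
    rw [← Matrix.mul_assoc, Matrix.adjugate_mul, Lb_det, Matrix.smul_mul, Matrix.one_mul]
  rw [Lb_mul_Nb, Matrix.mul_smul, Matrix.mul_one] at h1
  have h2 : (∏ l, b l) ≠ 0 := Finset.prod_ne_zero_iff.2 fun l _ => hb l
  ext i j
  have h3 := congrFun (congrFun h1 i) j
  rw [Matrix.smul_apply, Matrix.smul_apply, smul_eq_mul, smul_eq_mul] at h3
  exact mul_left_cancel₀ h2 h3

lemma Lb_adj (b : Fin k → A) (v : ℕ → A) : (Lb b v).adjugate = Nb b v := by
  set bX : Fin k → MvPolynomial (Fin k ⊕ ℕ) ℤ := fun l => MvPolynomial.X (Sum.inl l) with hbX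
  set vX : ℕ → MvPolynomial (Fin k ⊕ ℕ) ℤ := fun m => MvPolynomial.X (Sum.inr m) with hvX
  set φ : MvPolynomial (Fin k ⊕ ℕ) ℤ →+* A :=
    MvPolynomial.eval₂Hom (Int.castRingHom A) (Sum.elim b v) with hφ
  have h := Lb_adj_dom bX vX (fun l => MvPolynomial.X_ne_zero _)
  have hb : ∀ l, φ (bX l) = b l := fun l => by
    rw [hφ, hbX]
    simp
  have hv : ∀ m, φ (vX m) = v m := fun m => by
    rw [hφ, hvX]
    simp
  have h1 : φ.mapMatrix (Lb bX vX) = Lb b v := by
    ext i j
    simp only [RingHom.mapMatrix_apply, Matrix.map_apply, Lb, Matrix.of_apply]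
    split_ifs
    · exact hb _
    · exact hv _
    · exact map_zero _
  have h2 : φ.mapMatrix (Nb bX vX) = Nb b v := by
    ext i j
    simp only [RingHom.mapMatrix_apply, Matrix.map_apply, Nb, Matrix.of_apply]
    split_ifs
    · simp only [map_mul, map_pow, map_neg, map_one, map_prod, hb, hv]
    · exact map_zero _
  rw [← h1, ← RingHom.map_adjugate, h, h2]

end

theorem BIDI : BIDI_stmt := by
  intro A _ k b v i j hij
  have h := congrFun (congrFun (Lb_adj b v) i) j
  rw [Nb_le b v hij] at h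
  exact h

end Pool.Agent.Helper6.DS
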