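import Pool.Agent.Helper68.DS.Goals

set_option autoImplicit false

/-!
# The dimension of the space of forms
-/

namespace Pool.Agent.Helper6.DS

open Pool.Agent.Helper68.DS MvPolynomial

/-- The exponents of degree `k` are the elements of the symmetric power. -/
noncomputable def degEquiv (n k : ℕ) : {d : Fin n →₀ ℕ | d.degree = k} ≃ Sym (Fin n) k :=
  (Equiv.setCongr (by
    ext d
    simp only [Set.mem_setOf_eq]
    rfl) : {d : Fin n →₀ ℕ | d.degree = k} ≃
      {d : Fin n →₀ ℕ | (d.sum fun _ => id) = k}).trans (Sym.equivNatSum (Fin n) k).symm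

theorem DIM : DIM_stmt := by
  intro n k
  have e := degEquiv (n + 1) k
  have hHS : HS (n + 1) k = restrictSupport ℂ {d : Fin (n + 1) →₀ ℕ | d.degree = k} :=
    homogeneousSubmodule_eq_finsupp_supported _ _ _
  rw [hHS]
  haveI : Finite {d : Fin (n + 1) →₀ ℕ | d.degree = k} := Finite.of_equiv _ e.symm
  letI : Fintype {d : Fin (n + 1) →₀ ℕ | d.degree = k} := Fintype.ofFinite _
  have b := basisRestrictSupport ℂ {d : Fin (n + 1) →₀ ℕ | d.degree = k}
  refine ⟨Module.Finite.of_basis b, ?_⟩
  rw [Module.finrank_eq_card_basis b, Fintype.card_congr e, Sym.card_sym_eq_choose,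
    Fintype.card_fin]
  have h : n + 1 + k - 1 = n + k := by omega
  rw [h, Nat.choose_symm_add]

end Pool.Agent.Helper6.DS
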