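import Pool.Agent.Helper68.DS.Goals

set_option autoImplicit false

/-!
# Closure properties of polynomial curves
-/

namespace Pool.Agent.Helper6.DS

open Pool.Agent.Helper68.DS Finset

section

variable {V : Type} [AddCommGroup V] [Module ℂ V]

lemma ipm_zero : IsPolyMap (fun _ : ℂ => (0 : V)) := ⟨0, fun _ => 0, fun t => by simp⟩

lemma ipm_pad {f : ℂ → V} (h : IsPolyMap f) : ∃ (N : ℕ) (c : ℕ → V),
    ∀ M, N ≤ M → ∀ t, f t = ∑ n ∈ range M, t ^ n • c n := by
  obtain ⟨N, c, hc⟩ := h
  refine ⟨N, fun n => if n < N then c n else 0, fun M hM t => ?_⟩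
  beta_reduce
  rw [hc t]
  have h1 : ∑ n ∈ range N, t ^ n • (if n < N then c n else 0) =
      ∑ n ∈ range M, t ^ n • (if n < N then c n else 0) := by
    apply Finset.sum_subset (range_subset_range.2 hM)
    intro n _ hn
    rw [if_neg (by simpa using hn), smul_zero]
  rw [← h1]
  refine Finset.sum_congr rfl fun n hn => ?_
  rw [if_pos (mem_range.1 hn)]

lemma ipm_add {f g : ℂ → V} (hf : IsPolyMap f) (hg : IsPolyMap g) :
    IsPolyMap fun t => f t + g t := by
  obtain ⟨N, c, hc⟩ := ipm_pad hf
  obtain ⟨M, d, hd⟩ := ipm_pad hg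
  refine ⟨max N M, fun n => c n + d n, fun t => ?_⟩
  beta_reduce
  rw [hc _ (le_max_left _ _) t, hd _ (le_max_right _ _) t, ← Finset.sum_add_distrib]
  refine Finset.sum_congr rfl fun n _ => ?_
  rw [smul_add]

lemma ipm_smul (c : ℂ) {f : ℂ → V} (hf : IsPolyMap f) : IsPolyMap fun t => c • f t := by
  obtain ⟨N, d, hd⟩ := hf
  refine ⟨N, fun n => c • d n, fun t => ?_⟩
  beta_reduce
  rw [hd t, Finset.smul_sum]
  exact Finset.sum_congr rfl fun n _ => smul_comm _ _ _

lemma ipm_mono (n : ℕ) (v : V) : IsPolyMap fun t : ℂ => t ^ n • v := by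
  refine ⟨n + 1, fun m => if m = n then v else 0, fun t => ?_⟩
  beta_reduce
  rw [Finset.sum_eq_single n]
  · rw [if_pos rfl]
  · intro m _ hm
    rw [if_neg hm, smul_zero]
  · intro h
    exact absurd (mem_range.2 (Nat.lt_succ_self n)) h

lemma ipm_const (v : V) : IsPolyMap fun _ : ℂ => v := by
  have := ipm_mono 0 v
  simpa using this

lemma ipm_sum {ι : Type} (S : Finset ι) (f : ι → ℂ → V) (h : ∀ i ∈ S, IsPolyMap (f i)) :
    IsPolyMap fun t => ∑ i ∈ S, f i t := by
  classical
  induction S using Finset.induction_on with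
  | empty => simpa using ipm_zero
  | insert a S ha ih =>
    simp_rw [Finset.sum_insert ha]
    exact ipm_add (h a (mem_insert_self _ _)) (ih fun i hi => h i (mem_insert_of_mem hi))

lemma ipm_lin {W : Type} [AddCommGroup W] [Module ℂ W] (L : V →ₗ[ℂ] W) {f : ℂ → V}
    (hf : IsPolyMap f) : IsPolyMap fun t => L (f t) := by
  obtain ⟨N, c, hc⟩ := hf
  refine ⟨N, fun n => L (c n), fun t => ?_⟩
  beta_reduce
  rw [hc t, map_sum]
  exact Finset.sum_congr rfl fun n _ => map_smul _ _ _

lemma ipm_bilin {U W : Type} [AddCommGroup W] [Module ℂ W] [AddCommGroup U] [Module ℂ U]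
    (B : V →ₗ[ℂ] W →ₗ[ℂ] U) {f : ℂ → V} {g : ℂ → W} (hf : IsPolyMap f) (hg : IsPolyMap g) :
    IsPolyMap fun t => B (f t) (g t) := by
  obtain ⟨N, c, hc⟩ := hf
  obtain ⟨M, d, hd⟩ := hg
  have h1 : (fun t => B (f t) (g t)) =
      fun t => ∑ n ∈ range N, ∑ m ∈ range M, t ^ (n + m) • B (c n) (d m) := by
    funext t
    rw [hc t, hd t, map_sum B, LinearMap.sum_apply]
    refine Finset.sum_congr rfl fun n _ => ?_
    rw [map_smul B, LinearMap.smul_apply, map_sum (B (c n)), Finset.smul_sum]
    refine Finset.sum_congr rfl fun m _ => ?_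
    rw [map_smul (B (c n)), smul_smul, pow_add]
  rw [h1]
  exact ipm_sum _ _ fun n _ => ipm_sum _ _ fun m _ => ipm_mono _ _

lemma ipm_tsmul {f : ℂ → V} (hf : IsPolyMap f) : IsPolyMap fun t : ℂ => t • f t := by
  have h1 : IsPolyMap fun t : ℂ => t := by
    have := ipm_mono 1 (1 : ℂ)
    simpa using this
  exact ipm_bilin (LinearMap.lsmul ℂ V) h1 hf

lemma ipm_eq_zero {f : ℂ → V} (hf : IsPolyMap f) (h : ∀ t, t ≠ 0 → f t = 0) : f 0 = 0 := by
  rw [← Module.forall_dual_apply_eq_zero_iff ℂ]
  intro φ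
  obtain ⟨N, c, hc⟩ := ipm_lin φ hf
  set p : Polynomial ℂ := ∑ n ∈ range N, Polynomial.C (c n) * Polynomial.X ^ n with hp
  have hev : ∀ t, p.eval t = φ (f t) := by
    intro t
    have h1 := hc t
    beta_reduce at h1
    rw [h1, hp, Polynomial.eval_finsetSum]
    refine Finset.sum_congr rfl fun n _ => ?_
    rw [Polynomial.eval_mul, Polynomial.eval_C, Polynomial.eval_pow, Polynomial.eval_X,
      smul_eq_mul]
    ring
  have hp0 : p = 0 := by
    refine Polynomial.eq_zero_of_infinite_isRoot p ?_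
    refine Set.Infinite.mono (s := {t : ℂ | t ≠ 0}) ?_ ?_
    · intro t ht
      show p.eval t = 0
      rw [hev t, h t ht, map_zero]
    · exact (Set.finite_singleton (0 : ℂ)).infinite_compl
  rw [← hev 0, hp0, Polynomial.eval_zero]

end

lemma ipm_mul {A : Type} [CommRing A] [Algebra ℂ A] {f g : ℂ → A} (hf : IsPolyMap f)
    (hg : IsPolyMap g) : IsPolyMap fun t => f t * g t :=
  ipm_bilin (LinearMap.mul ℂ A) hf hg

lemma ipm_prod {ι : Type} (S : Finset ι) {A : Type} [CommRing A] [Algebra ℂ A]
    (f : ι → ℂ → A) (h : ∀ i ∈ S, IsPolyMap (f i)) : IsPolyMap fun t => ∏ i ∈ S, f i t := by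
  classical
  induction S using Finset.induction_on with
  | empty => simpa using ipm_const (1 : A)
  | insert a S ha ih =>
    simp_rw [Finset.prod_insert ha]
    exact ipm_mul (h a (mem_insert_self _ _)) (ih fun i hi => h i (mem_insert_of_mem hi))

lemma ipm_comp {V : Type} [AddCommGroup V] [Module ℂ V] (r s : ℂ) {f : ℂ → V}
    (hf : IsPolyMap f) : IsPolyMap fun t => f (r + s * t) := by
  obtain ⟨N, c, hc⟩ := hf
  have h0 : IsPolyMap fun t : ℂ => r + s * t := by
    have h1 := ipm_smul s (ipm_mono 1 (1 : ℂ))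
    have h2 := ipm_add (ipm_const r) h1
    simpa using h2
  have hpow : ∀ n : ℕ, IsPolyMap fun t : ℂ => (r + s * t) ^ n := by
    intro n
    induction n with
    | zero => simpa using ipm_const (1 : ℂ)
    | succ n ih =>
      simp_rw [pow_succ]
      exact ipm_mul ih h0
  simp_rw [hc]
  exact ipm_sum _ _ fun n _ => ipm_bilin (LinearMap.lsmul ℂ V) (hpow n) (ipm_const (c n))

lemma ipm_pi {ι : Type} [Finite ι] {V : Type} [AddCommGroup V] [Module ℂ V] {f : ℂ → ι → V}
    (h : ∀ i, IsPolyMap fun t => f t i) : IsPolyMap f := by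
  classical
  cases nonempty_fintype ι
  have h1 : f = fun t => ∑ i, (LinearMap.single ℂ (fun _ : ι => V) i) (f t i) := by
    funext t
    simp only [LinearMap.coe_single]
    exact (Finset.univ_sum_single (f t)).symm
  rw [h1]
  exact ipm_sum _ _ fun i _ => ipm_lin _ (h i)

theorem PM : PM_stmt where
  const := fun V _ _ v => ipm_const v
  line := fun V _ _ v w => ipm_add (ipm_const v) (ipm_tsmul (ipm_const w))
  add := fun V _ _ f g hf hg => ipm_add hf hg
  sub := fun V _ _ f g hf hg => by
    have h := ipm_add hf (ipm_smul (-1) hg)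
    have e : (fun t => f t - g t) = fun t => f t + (-1 : ℂ) • g t := by
      funext t
      rw [neg_smul, one_smul, sub_eq_add_neg]
    rw [e]
    exact h
  smul := fun V _ _ c f hf => ipm_smul c hf
  tsmul := fun V _ _ f hf => ipm_tsmul hf
  lin := fun V W _ _ _ _ L f hf => ipm_lin L hf
  comp := fun V _ _ r s f hf => ipm_comp r s hf
  pi := fun ι _ V _ _ f h => ipm_pi h
  sum := fun ι S V _ _ f h => ipm_sum S f h
  mul := fun A _ _ f g hf hg => ipm_mul hf hg
  prod := fun ι S A _ _ f h => ipm_prod S f h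
  adj := fun κ _ _ A _ _ M hM a b => by
    have e : (fun t => (M t).adjugate a b) = fun t => ∑ σ : Equiv.Perm κ,
        ((Equiv.Perm.sign σ : ℤ) : A) * ∏ i, (if σ i = b then
          (Pi.single a (1 : A) : κ → A) i else M t (σ i) i) := by
      funext t
      rw [Matrix.adjugate_apply, Matrix.det_apply']
      refine Finset.sum_congr rfl fun σ _ => ?_
      congr 1
      refine Finset.prod_congr rfl fun i _ => ?_
      rw [Matrix.updateRow_apply]
    rw [e]
    refine ipm_sum _ _ fun σ _ => ipm_mul (ipm_const _) (ipm_prod _ _ fun i _ => ?_)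
    by_cases h : σ i = b
    · simp only [h, if_true]
      exact ipm_const _
    · simp only [h, if_false]
      exact hM _ _
  div := fun V _ _ f hf h0 => by
    obtain ⟨N, c, hc⟩ := hf
    cases N with
    | zero =>
      refine ⟨fun _ => 0, ipm_zero, fun t => ?_⟩
      rw [hc t]
      simp
    | succ N =>
      refine ⟨fun t => ∑ n ∈ range N, t ^ n • c (n + 1), ⟨N, fun n => c (n + 1), fun t => rfl⟩,
        fun t => ?_⟩
      have h1 : c 0 = 0 := by
        have h2 := hc 0
        rw [h0, Finset.sum_range_succ'] at h2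
        simpa using h2.symm
      rw [hc t, Finset.sum_range_succ', h1, smul_zero, add_zero, Finset.smul_sum]
      refine Finset.sum_congr rfl fun n _ => ?_
      rw [smul_smul, pow_succ']
  coeff1 := fun V _ _ f v w g hf hg h h' hh h1 => by
    have hp : IsPolyMap fun t : ℂ => (h' t + (-1 : ℂ) • w) + (-1 : ℂ) • (t • g t) :=
      ipm_add (ipm_add hh (ipm_smul (-1) (ipm_const w))) (ipm_smul (-1) (ipm_tsmul hg))
    have h2 := ipm_eq_zero hp (fun t ht => by
      have h3 : t • h' t = t • w + t ^ 2 • g t := by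
        have h4 := (h1 t).symm.trans (h t)
        rw [add_assoc] at h4
        exact add_left_cancel h4
      have h5 : t • h' t = t • (w + t • g t) := by
        rw [h3, smul_add, smul_smul, pow_two]
      have h6 : h' t = w + t • g t := smul_right_injective V ht h5
      rw [h6]
      simp only [neg_smul, one_smul]
      abel)
    simp only [zero_smul, smul_zero, add_zero, neg_smul, one_smul] at h2
    rw [← sub_eq_add_neg, sub_eq_zero] at h2
    exact h2

end Pool.Agent.Helper6.DS
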